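import Pool.Agent.Q301.SZ.Cube
import Pool.Agent.H635R2.Ext

/-!
# Cantor cubes are strongly zero-dimensional in ZF

In every model of Zermelo set theory (so in every model of ZF) the Cantor cube `2 ^ j` is strongly
zero-dimensional, for every set `j`.
-/

namespace Pool.Agent.Results.MP_fa4505_lc.StronglyZeroDim

open FirstOrder FirstOrder.Language
open Pool.Agent.Helper672.Plain (LSet Zermelo El)
open Pool.Agent.H635Amen (IsReals)
open Pool.Agent.Q301.SZ

universe u

theorem result (M : Type u) [LSet.Structure M] [Zermelo M] (r : M) [Field (El r)]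
    [LinearOrder (El r)] [IsStrictOrderedRing (El r)] (hr : IsReals r) (j c T : M)
    (h : IsCantorCube T c j) : IsStronglyZeroDim T c r := by
  let _ := Pool.Agent.Helper672.Plain.toL M
  have : Pool.Agent.Helper672.ZFA.IsModel M :=
    Pool.Agent.Helper672.ZFA.H635.isModel_of_zermelo inferInstance
  exact isStronglyZeroDim_cube hr h

end Pool.Agent.Results.MP_fa4505_lc.StronglyZeroDim
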